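import Pool.Agent.Helper17.OD.GoalsCV

/-!
# Packet OD HU2: the collapse of the hull is constructible (3.4)
-/

namespace Pool.Agent.Helper17.OD.PkHU2

open Set

theorem isOrd_iff {t : T} : t.IsOrd ↔ ∃ x : O, t = .ord x := by
  cases t <;> simp [Tr.IsOrd]

theorem mem_gr {A : Set T} {f : T → T} {a y : T} : Tr.pr a y ∈ gr A f ↔ a ∈ A ∧ y = f a := by
  simp only [gr, mem_ofPred_eq, Tr.pr.injEq]
  constructor
  · rintro ⟨x, hx, rfl, rfl⟩; exact ⟨hx, rfl⟩
  · rintro ⟨ha, rfl⟩; exact ⟨a, ha, rfl, rfl⟩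

variable {k : O} {S S' : Set (Set T)}

theorem sd1 [SOM k S S'] (V : Set T) (hV : V ∈ S') :
    SD k S S' (fun e _ => ∃ a ∈ D (Iio k), ∃ b ∈ D (Iio k), ∃ x ∈ D (Iio k),
      ∃ y ∈ D (Iio k), e = .pr a b ∧ Tr.pr a x ∈ V ∧ Tr.pr b y ∈ V ∧ x.IsOrd ∧ y.IsOrd ∧
        x.llt y) := by
  apply_rules (maxDepth := 400) [SD.exT, SD.allT, SD.exS, SD.allS, SD.isOrd, SD.llt, SD.mem, SD.eq, SD.not,
    SD.and, SD.or, SD.iff, SD.imp, ST.id, ST.fst, ST.snd, ST.pr, ST.nat, ST.ordc, SV.var, SV.par]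

theorem sd2 [SOM k S S'] (V : Set T) (hV : V ∈ S') (p : O) (hp : p < k) (h0 : (0 : O) < k) :
    SD k S S' (fun e _ => ∃ a ∈ D (Iio k), ∃ x ∈ D (Iio k), ∃ y ∈ D (Iio k),
      e = .pr a y ∧ Tr.pr a x ∈ V ∧ ((x.IsOrd ∧ x.llt (.ord p) ∧ y = x) ∨
        (¬ (x.IsOrd ∧ x.llt (.ord p)) ∧ y = .ord 0))) := by
  apply_rules (maxDepth := 400) [SD.exT, SD.allT, SD.exS, SD.allS, SD.isOrd, SD.llt, SD.mem, SD.eq, SD.not,
    SD.and, SD.or, SD.iff, SD.imp, ST.id, ST.fst, ST.snd, ST.pr, ST.nat, ST.ordc, SV.var, SV.par]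

theorem sd3 [SOM k S S'] (V V' : Set T) (hV : V ∈ S') (hV' : V' ∈ S') (d : O) (hd : d < k) :
    SD k S S' (fun e _ => ∃ a ∈ D (Iio k), ∃ x ∈ D (Iio k), ∃ y ∈ D (Iio k), e = .pr x y ∧
      Tr.pr a x ∈ V ∧ Tr.pr a y ∈ V' ∧ x.IsOrd ∧ x.llt (.ord d)) := by
  apply_rules (maxDepth := 400) [SD.exT, SD.allT, SD.exS, SD.allS, SD.isOrd, SD.llt, SD.mem, SD.eq, SD.not,
    SD.and, SD.or, SD.iff, SD.imp, ST.id, ST.fst, ST.snd, ST.pr, ST.nat, ST.ordc, SV.var, SV.par]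

theorem sd4 [SOM k S S'] (V V' : Set T) (hV : V ∈ S') (hV' : V' ∈ S') :
    SD k S S' (fun e _ => ∃ a ∈ D (Iio k), ∃ x ∈ D (Iio k), ∃ y ∈ D (Iio k), e = .pr x y ∧
      Tr.pr a x ∈ V ∧ Tr.pr a y ∈ V' ∧ y.IsOrd) := by
  apply_rules (maxDepth := 400) [SD.exT, SD.allT, SD.exS, SD.allS, SD.isOrd, SD.llt, SD.mem, SD.eq, SD.not,
    SD.and, SD.or, SD.iff, SD.imp, ST.id, ST.fst, ST.snd, ST.pr, ST.nat, ST.ordc, SV.var, SV.par]

theorem thm (hRNK : G_RNK) (hDEC : G_DEC) : G_HU2 := by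
  intro k w τ β S S' c val π hC hM hV hval hH
  have hS : SOM k S S' := hC.som
  have hcon : SOM k (Con k) (Con k) := hC.con
  have wk : w < k := hC.wk
  have Dwk : D (Iio w) ⊆ D (Iio k) := D_mono (Iio_subset_Iio wk.le)
  have wpos : (0 : O) < w := lt_trans Ordinal.omega0_pos hC.omw
  have hπ0 : π 0 = 0 := hH.idw 0 wpos
  have hvk : ∀ a ∈ D (Iio w), val a ∈ D (Iio k) := fun a ha =>
    D_mono (Iio_subset_Iio hM.tk.le) (hV.bd a ha)
  -- ordinal values of `val`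
  have ordmap : ∀ a ∈ D (Iio w), ∀ z, val a = .ord z → ∃ x < β, z = π x := by
    intro a ha z hz
    obtain ⟨t, ht, hat⟩ := hH.tr2 a ha
    rw [hz] at hat
    cases t with
    | nat n => simp [Tr.map] at hat
    | ord x =>
      refine ⟨x, ord_mem.1 ht, ?_⟩
      simpa [Tr.map] using hat
    | pr s t => simp [Tr.map] at hat
  have ordsurj : ∀ x < β, ∃ a ∈ D (Iio w), val a = .ord (π x) := by
    intro x hx
    obtain ⟨a, ha, hat⟩ := hH.tr1 (.ord x) (ord_mem.2 hx)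
    exact ⟨a, ha, hat⟩
  -- the relation
  let R : Set T := {p | ∃ a ∈ D (Iio w), ∃ b ∈ D (Iio w), p = .pr a b ∧
    ∃ x y : O, val a = .ord x ∧ val b = .ord y ∧ x < y}
  have hRsub : R ⊆ D (Iio w) := by
    rintro p ⟨a, ha, b, hb, rfl, -⟩
    exact pr_mem.2 ⟨ha, hb⟩
  have hRS : R ∈ S' := by
    refine SOM.of_SD (S := S) wk hRsub ?_
    have h1 := sd1 (k := k) (S := S) (gr (D (Iio w)) val) hval
    refine h1.congr fun e _ σ _ => ?_
    constructor
    · rintro ⟨a, -, b, -, x, -, y, -, rfl, h2, h3, h4, h5, h6⟩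
      obtain ⟨ha, rfl⟩ := mem_gr.1 h2
      obtain ⟨hb, rfl⟩ := mem_gr.1 h3
      obtain ⟨x, hx⟩ := isOrd_iff.1 h4
      obtain ⟨y, hy⟩ := isOrd_iff.1 h5
      rw [hx, hy] at h6
      exact ⟨a, ha, b, hb, rfl, x, y, hx, hy, h6⟩
    · rintro ⟨a, ha, b, hb, rfl, x, y, hx, hy, hxy⟩
      refine ⟨a, Dwk ha, b, Dwk hb, val a, hvk a ha, val b, hvk b hb, rfl,
        mem_gr.2 ⟨ha, rfl⟩, mem_gr.2 ⟨hb, rfl⟩, isOrd_iff.2 ⟨x, hx⟩, isOrd_iff.2 ⟨y, hy⟩, ?_⟩
      rw [hx, hy]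
      exact hxy
  have hRC : R ∈ Con k := hC.h1 R hRS hRsub
  have memR : ∀ a b, Tr.pr a b ∈ R ↔ a ∈ D (Iio w) ∧ b ∈ D (Iio w) ∧
      ∃ x y : O, val a = .ord x ∧ val b = .ord y ∧ x < y := by
    intro a b
    simp only [R, mem_ofPred_eq, Tr.pr.injEq]
    constructor
    · rintro ⟨a', ha, b', hb, ⟨rfl, rfl⟩, h⟩; exact ⟨ha, hb, h⟩
    · rintro ⟨ha, hb, h⟩; exact ⟨a, ha, b, hb, ⟨rfl, rfl⟩, h⟩
  have hmin : ∀ Y ∈ Con k, Y.Nonempty → ∃ y ∈ Y, ∀ z ∈ Y, Tr.pr z y ∉ R := by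
    intro Y _ hY
    by_contra hcon'
    push Not at hcon'
    have h1 : ∀ x : O, ∀ y ∈ Y, val y = .ord x → False := by
      intro x
      induction x using WellFoundedLT.induction with
      | ind x ih =>
        intro y hy hyx
        obtain ⟨z, hz, hzy⟩ := hcon' y hy
        obtain ⟨-, -, x', y', h2, h3, h4⟩ := (memR z y).1 hzy
        rw [hyx] at h3
        have h5 : x = y' := by simpa using h3
        exact ih x' (h5 ▸ h4) z hz h2
    obtain ⟨y, hy⟩ := hY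
    obtain ⟨z, hz, hzy⟩ := hcon' y hy
    obtain ⟨-, -, x', y', h2, h3, h4⟩ := (memR z y).1 hzy
    exact h1 y' y hy h3
  obtain ⟨-, ρ, b, hbk, hρb, hρ, hρ0, hρgr⟩ := hRNK k (Con k) (Con k) hcon R hRC hmin
  -- the rank is the collapse
  have hrank : ∀ x : O, x < β → ∀ a ∈ D (Iio w), val a = .ord (π x) → ρ a = x := by
    intro x
    induction x using WellFoundedLT.induction with
    | ind x ih =>
      intro hx a ha hax
      apply le_antisymm
      · by_contra hlt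
        push Not at hlt
        obtain ⟨y, hyR, hxy⟩ := (hρ a x).1 hlt
        obtain ⟨hy, -, z, z', h2, h3, h4⟩ := (memR y a).1 hyR
        rw [hax] at h3
        have h5 : π x = z' := by simpa using h3
        obtain ⟨x', hx', rfl⟩ := ordmap y hy z h2
        have h6 : x' < x := by
          rw [← h5] at h4
          exact (hH.mono.lt_iff_lt hx' hx).1 h4
        rw [ih x' h6 hx' y hy h2] at hxy
        exact absurd hxy (not_le.2 h6)
      · by_contra hlt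
        push Not at hlt
        have h1 : ρ a < β := hlt.trans hx
        obtain ⟨y, hy, hyx⟩ := ordsurj (ρ a) h1
        have h2 := ih (ρ a) hlt h1 y hy hyx
        have h3 : Tr.pr y a ∈ R :=
          (memR y a).2 ⟨hy, ha, π (ρ a), π x, hyx, hax, hH.mono h1 hx hlt⟩
        have h4 : ρ a < ρ a := (hρ a (ρ a)).2 ⟨y, h3, h2.ge⟩
        exact lt_irrefl _ h4
  have hβb : β ≤ b := by
    by_contra hlt
    push Not at hlt
    obtain ⟨a, ha, hax⟩ := ordsurj b hlt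
    have := hρb a
    rw [hrank b hlt a ha hax] at this
    exact lt_irrefl _ this
  have hβk : β < k := lt_of_le_of_lt hβb hbk
  let E : T → T := fun a => .ord (ρ a)
  have hEC : gr (D (Iio w)) E ∈ Con k := hρgr w wk
  have hEord : ∀ a ∈ D (Iio w), ∀ x < β, val a = .ord (π x) → E a = .ord x := fun a ha x hx hax => by
    simp only [E, hrank x hx a ha hax]
  have hEnot : ∀ a ∈ D (Iio w), ¬ (val a).IsOrd → E a = .ord 0 := by
    intro a ha hn
    have : ρ a = 0 := by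
      apply hρ0
      intro y hy
      obtain ⟨-, -, z, z', h2, h3, h4⟩ := (memR y a).1 hy
      exact hn (isOrd_iff.2 ⟨z', h3⟩)
    simp only [E, this]
  have hEk : ∀ a, E a ∈ D (Iio k) := fun a => ord_mem.2 (lt_trans (hρb a) hbk)
  have hCS : Con k ⊆ S' := (hDEC k S S' hS).2.1
  refine ⟨hβk, ⟨E, hEC, hEord, hEnot⟩, ?_, ?_⟩
  · -- initial segments of the collapse
    intro d hd
    have hdk : d < k := hd.trans hβk
    classical
    rcases eq_or_ne d 0 with rfl | hd0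
    · have : {p : T | ∃ x < (0 : O), p = .pr (.ord x) (.ord (π x))} = ∅ := by
        ext p
        simp [not_lt_of_ge]
      rw [this]
      exact hcon.emp
    have hdpos : 0 < d := pos_iff_ne_zero.2 hd0
    have hπd : 0 < π d := by
      have h0β : (0 : O) < β := hdpos.trans hd
      have := hH.mono h0β hd hdpos
      rwa [hπ0] at this
    let Q : T → Prop := fun a => ∃ x : O, val a = .ord x ∧ x < π d
    let c' : T → T := fun a => if Q a then val a else .ord 0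
    have hc'ord : OrdFn w (π d) c' := by
      intro a ha
      by_cases hq : Q a
      · obtain ⟨x, hx, hxd⟩ := hq
        have h1 : c' a = val a := if_pos ⟨x, hx, hxd⟩
        rw [h1, hx]
        exact ⟨trivial, ord_mem.2 hxd⟩
      · have h1 : c' a = .ord 0 := if_neg hq
        rw [h1]
        exact ⟨trivial, ord_mem.2 hπd⟩
    have hπk : π d < k := (hH.lt d hd).trans hM.tk
    have hc'k : ∀ a ∈ D (Iio w), c' a ∈ D (Iio k) := fun a ha =>
      D_mono (Iio_subset_Iio hπk.le) (hc'ord a ha).2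
    have h0k : (0 : O) < k := hdpos.trans hdk
    have hc'S : gr (D (Iio w)) c' ∈ S' := by
      have hb' : gr (D (Iio w)) c' ⊆ D (Iio (max w (π d))) := by
        rintro p ⟨a, ha, rfl⟩
        exact pr_mem.2 ⟨D_mono (Iio_subset_Iio (le_max_left _ _)) ha,
          D_mono (Iio_subset_Iio (le_max_right _ _)) (hc'ord a ha).2⟩
      refine SOM.of_SD (S := S) (max_lt wk hπk) hb' ?_
      have h1 := sd2 (k := k) (S := S) (gr (D (Iio w)) val) hval (π d) hπk h0k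
      refine h1.congr fun e _ σ _ => ?_
      have hQiff : ∀ a, Q a ↔ ((val a).IsOrd ∧ (val a).llt (.ord (π d))) := by
        intro a
        constructor
        · rintro ⟨x, hx, hxd⟩
          rw [hx]
          exact ⟨trivial, hxd⟩
        · rintro ⟨h2, h3⟩
          obtain ⟨x, hx⟩ := isOrd_iff.1 h2
          rw [hx] at h3
          exact ⟨x, hx, h3⟩
      constructor
      · rintro ⟨a, -, x, -, y, -, rfl, h2, h3⟩
        obtain ⟨ha, rfl⟩ := mem_gr.1 h2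
        refine mem_gr.2 ⟨ha, ?_⟩
        rcases h3 with ⟨h4, h5, rfl⟩ | ⟨h4, rfl⟩
        · exact (if_pos ((hQiff a).2 ⟨h4, h5⟩)).symm
        · exact (if_neg (fun hq => h4 ((hQiff a).1 hq))).symm
      · rintro ⟨a, ha, rfl⟩
        refine ⟨a, Dwk ha, val a, hvk a ha, c' a, hc'k a ha, rfl, mem_gr.2 ⟨ha, rfl⟩, ?_⟩
        by_cases hq : Q a
        · exact Or.inl ⟨((hQiff a).1 hq).1, ((hQiff a).1 hq).2, if_pos hq⟩
        · exact Or.inr ⟨fun h => hq ((hQiff a).2 h), if_neg hq⟩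
    have hc'C : gr (D (Iio w)) c' ∈ Con k := hM.min (π d) (hH.lt d hd) c' hc'ord hc'S
    have := hcon
    have hb' : {p : T | ∃ x < d, p = .pr (.ord x) (.ord (π x))} ⊆ D (Iio (max d (π d))) := by
      rintro p ⟨x, hx, rfl⟩
      exact pr_mem.2 ⟨ord_mem.2 (lt_of_lt_of_le hx (le_max_left _ _)),
        ord_mem.2 (lt_of_lt_of_le (hH.mono (hx.trans hd) hd hx) (le_max_right _ _))⟩
    refine SOM.of_SD (S := Con k) (S' := Con k) (max_lt hdk hπk) hb' ?_
    have h1 := sd3 (k := k) (S := Con k) (gr (D (Iio w)) E) (gr (D (Iio w)) c') hEC hc'C d hdk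
    refine h1.congr fun e _ σ _ => ?_
    constructor
    · rintro ⟨a, -, x, -, y, -, rfl, h2, h3, h4, h5⟩
      obtain ⟨ha, rfl⟩ := mem_gr.1 h2
      obtain ⟨-, rfl⟩ := mem_gr.1 h3
      have h6 : ρ a < d := h5
      refine ⟨ρ a, h6, ?_⟩
      have h7 : c' a = .ord (π (ρ a)) := by
        by_cases ho : (val a).IsOrd
        · obtain ⟨z, hz⟩ := isOrd_iff.1 ho
          obtain ⟨x, hx, rfl⟩ := ordmap a ha z hz
          have h8 := hrank x hx a ha hz
          rw [h8] at h6 ⊢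
          have hq : Q a := ⟨π x, hz, hH.mono hx hd h6⟩
          have h9 : c' a = val a := if_pos hq
          rw [h9, hz]
        · have h8 : E a = .ord 0 := hEnot a ha ho
          have h9 : ρ a = 0 := by simpa [E] using h8
          have hq : ¬ Q a := fun ⟨x, hx, _⟩ => ho (isOrd_iff.2 ⟨x, hx⟩)
          have h10 : c' a = .ord 0 := if_neg hq
          rw [h10, h9, hπ0]
      show Tr.pr (E a) (c' a) = _
      rw [h7]
    · rintro ⟨x, hx, rfl⟩
      have hxβ : x < β := hx.trans hd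
      obtain ⟨a, ha, hax⟩ := ordsurj x hxβ
      have hq : Q a := ⟨π x, hax, hH.mono hxβ hd hx⟩
      have h9 : c' a = val a := if_pos hq
      refine ⟨a, Dwk ha, .ord x, ord_mem.2 (hx.trans hdk), .ord (π x),
        ord_mem.2 ((hH.mono hxβ hd hx).trans hπk), rfl,
        mem_gr.2 ⟨ha, (hEord a ha x hxβ hax).symm⟩, mem_gr.2 ⟨ha, ?_⟩, trivial, hx⟩
      rw [h9, hax]
  · -- the collapse
    have hES : gr (D (Iio w)) E ∈ S' := hCS hEC
    have hb' : {p : T | ∃ x < β, p = .pr (.ord x) (.ord (π x))} ⊆ D (Iio (max β τ)) := by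
      rintro p ⟨x, hx, rfl⟩
      exact pr_mem.2 ⟨ord_mem.2 (lt_of_lt_of_le hx (le_max_left _ _)),
        ord_mem.2 (lt_of_lt_of_le (hH.lt x hx) (le_max_right _ _))⟩
    refine SOM.of_SD (S := S) (max_lt hβk hM.tk) hb' ?_
    have h1 := sd4 (k := k) (S := S) (gr (D (Iio w)) E) (gr (D (Iio w)) val) hES hval
    refine h1.congr fun e _ σ _ => ?_
    constructor
    · rintro ⟨a, -, x, -, y, -, rfl, h2, h3, h4⟩
      obtain ⟨ha, rfl⟩ := mem_gr.1 h2
      obtain ⟨-, rfl⟩ := mem_gr.1 h3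
      obtain ⟨z, hz⟩ := isOrd_iff.1 h4
      obtain ⟨x, hx, rfl⟩ := ordmap a ha z hz
      refine ⟨x, hx, ?_⟩
      rw [hEord a ha x hx hz, hz]
    · rintro ⟨x, hx, rfl⟩
      obtain ⟨a, ha, hax⟩ := ordsurj x hx
      exact ⟨a, Dwk ha, .ord x, ord_mem.2 (hx.trans hβk), .ord (π x),
        ord_mem.2 ((hH.lt x hx).trans hM.tk), rfl,
        mem_gr.2 ⟨ha, (hEord a ha x hx hax).symm⟩, mem_gr.2 ⟨ha, hax.symm⟩, trivial⟩

end Pool.Agent.Helper17.OD.PkHU2
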